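import Pool.Agent.Work.MP_f2eb3d_co.Hedge.Rev

open Pool.Agent.Work.MP_f2eb3d_co.Hedge

/-- Let `1 ≤ t < n` and let `μ` be the `ℚ`-codegree or the Fine `ℚ`-codegree of an
`n`-dimensional lattice polytope `P`. If `μ > (n + t - 1) / 2`, then `P` is a Cayley sum of
`t + 1` polytopes unless it is the `(t - 1)`-fold lattice pyramid over `2 Δ_{n-t+1}`, which has
`μ = (n + t) / 2` and is no such sum. -/
theorem Pool.Agent.Results.MP_f2eb3d_co.CayleyExtremal.result (n t : ℕ) (ht : 1 ≤ t) (htn : t < n)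
    (P : Set (Fin n → ℝ)) (hP : IsLatticePolytope P) (μ : ℝ)
    (hμ : μ = qCodegree P ∨ μ = fineCodegree P) :
    List.TFAE [((n : ℝ) + t - 1) / 2 < μ ∧ ¬ IsCayley t P,
      μ = ((n : ℝ) + t) / 2 ∧ ¬ IsCayley t P,
      LatticeEquiv P (pyramid n (t - 1))] := by
  obtain ⟨k, rfl⟩ : ∃ k, t = k + 1 := ⟨t - 1, by omega⟩
  obtain ⟨⟨V, rfl⟩, hV⟩ := hP
  have e1 : ((n : ℝ) + ((k + 1 : ℕ) : ℝ) - 1) / 2 = ((n : ℝ) + k) / 2 := by
    push_cast
    ring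
  have e2 : ((n : ℝ) + ((k + 1 : ℕ) : ℝ)) / 2 = ((n : ℝ) + k + 1) / 2 := by
    push_cast
    ring
  rw [e1, e2, Nat.add_sub_cancel]
  rcases hμ with rfl | rfl
  · exact tfae (V := V) hV htn _ (fine_sub _) fun _ => subset_rfl
  · exact tfae (V := V) hV htn _ (fun _ => subset_rfl) (fine_sub _)
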